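import Mathlib

set_option autoImplicit false

namespace Pool.Agent.Helper20.SemiRat

open MulAction

/-- Counting through an equivariant map. -/
lemma card_dvd_of_fibers {H X Y : Type*} [Group H] [Finite H] [Finite X] [MulAction H X]
    [MulAction H Y] (π : X → Y) (hπ : ∀ (h : H) (x : X), π (h • x) = h • π x)
    (hdiv : ∀ x : X, Nat.card (stabilizer H (π x)) ∣ Nat.card {x' : X // π x' = π x}) :
    Nat.card H ∣ Nat.card X := by
  classical
  let q : X → orbitRel.Quotient H Y := fun x => Quotient.mk'' (π x)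
  have key : ∀ x0 : X, Nat.card H ∣ Nat.card {x : X // q x = q x0} := by
    intro x0
    have e1 : (H × {x' : X // π x' = π x0}) ≃
        (Σ z : {x : X // q x = q x0}, {h : H // h • π x0 = π z.1}) := by
      refine
        { toFun := fun p => ⟨⟨p.1 • p.2.1, ?_⟩, ⟨p.1, ?_⟩⟩
          invFun := fun s => (s.2.1, ⟨s.2.1⁻¹ • s.1.1, ?_⟩)
          left_inv := ?_
          right_inv := ?_ }
      · change (Quotient.mk'' (π (p.1 • p.2.1)) : orbitRel.Quotient H Y) = Quotient.mk'' (π x0)
        rw [Quotient.eq'', hπ, p.2.2]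
        exact ⟨p.1, rfl⟩
      · simp only
        rw [hπ, p.2.2]
      · rw [hπ]
        exact (eq_inv_smul_iff.mpr s.2.2).symm
      · rintro ⟨h, x, hx⟩
        simp
      · rintro ⟨⟨z, hz⟩, ⟨h, hh⟩⟩
        refine Sigma.subtype_ext ?_ rfl
        simp
    have e2 : ∀ z : {x : X // q x = q x0},
        Nonempty ({h : H // h • π x0 = π z.1} ≃ stabilizer H (π x0)) := by
      rintro ⟨z, hz⟩
      have hz' : (Quotient.mk'' (π z) : orbitRel.Quotient H Y) = Quotient.mk'' (π x0) := hz
      rw [Quotient.eq''] at hz'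
      obtain ⟨h0, hh0⟩ := hz'
      simp only at hh0
      refine ⟨{ toFun := fun h => ⟨h0⁻¹ * h.1, ?_⟩, invFun := fun s => ⟨h0 * s.1, ?_⟩,
                left_inv := ?_, right_inv := ?_ }⟩
      · rw [mem_stabilizer_iff, mul_smul, h.2, ← hh0, inv_smul_smul]
      · have := s.2
        rw [mem_stabilizer_iff] at this
        rw [mul_smul, this]
        exact hh0
      · rintro ⟨h, hh⟩; simp
      · rintro ⟨s, hs⟩; simp
    have e3 : Nonempty ((H × {x' : X // π x' = π x0}) ≃
        ({x : X // q x = q x0} × stabilizer H (π x0))) :=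
      ⟨e1.trans ((Equiv.sigmaCongrRight (fun z => (e2 z).some)).trans
        (Equiv.sigmaEquivProd _ _))⟩
    have h4 := Nat.card_congr e3.some
    rw [Nat.card_prod, Nat.card_prod] at h4
    obtain ⟨m, hm⟩ := hdiv x0
    have hpos : 0 < Nat.card (stabilizer H (π x0)) := Nat.card_pos
    refine ⟨m, ?_⟩
    have : Nat.card {x : X // q x = q x0} * Nat.card (stabilizer H (π x0)) =
        (Nat.card H * m) * Nat.card (stabilizer H (π x0)) := by
      rw [← h4, hm]; ring
    exact Nat.eq_of_mul_eq_mul_right hpos this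
  have := Fintype.ofFinite X
  have hsum : Nat.card X = ∑ b ∈ (Finset.univ : Finset X).image q,
      ((Finset.univ : Finset X).filter (fun x => q x = b)).card := by
    rw [Nat.card_eq_fintype_card, ← Finset.card_univ]
    exact Finset.card_eq_sum_card_image q Finset.univ
  rw [hsum]
  refine Finset.dvd_sum ?_
  intro b hb
  obtain ⟨x0, -, rfl⟩ := Finset.mem_image.mp hb
  have := key x0
  rwa [Nat.card_eq_fintype_card (α := {x : X // q x = q x0}), Fintype.card_subtype] at this

/-- A finite group acting freely on a finite set has order dividing the size of the set. -/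
lemma card_dvd_of_free {C Z : Type*} [Group C] [Finite C] [Finite Z] [MulAction C Z]
    (h : ∀ z : Z, stabilizer C z = ⊥) : Nat.card C ∣ Nat.card Z := by
  refine card_dvd_of_fibers (H := C) (X := Z) (Y := Z) id (fun _ _ => rfl) ?_
  intro x
  simp only [id]
  rw [h x]
  simp

/-- Twisting a homomorphism by a centralizing element in the top degree. -/
lemma exists_twist {F Q : Type*} [Group F] [Group Q] (deg : F →* Multiplicative ℤ) (T : F)
    (hT : deg T = Multiplicative.ofAdd 1) (ψ : F →* Q) (c : Q)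
    (hc : ∀ f, deg f = 1 → c * ψ f = ψ f * c) :
    ∃ ψ' : F →* Q, (∀ f, deg f = 1 → ψ' f = ψ f) ∧ ψ' T = c * ψ T := by
  set x := ψ T with hx
  -- conjugation by x preserves the commuting property
  have hconj : ∀ z : Q, (∀ f, deg f = 1 → z * ψ f = ψ f * z) →
      (∀ f, deg f = 1 → (x⁻¹ * z * x) * ψ f = ψ f * (x⁻¹ * z * x)) := by
    intro z hz f hf
    have h1 : deg (T * f * T⁻¹) = 1 := by simp [hf]
    have h2 := hz _ h1
    simp only [map_mul, map_inv, ← hx] at h2
    calc x⁻¹ * z * x * ψ f = x⁻¹ * (z * (x * ψ f * x⁻¹)) * x := by group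
      _ = x⁻¹ * ((x * ψ f * x⁻¹) * z) * x := by rw [h2]
      _ = ψ f * (x⁻¹ * z * x) := by group
  have hconj' : ∀ z : Q, (∀ f, deg f = 1 → z * ψ f = ψ f * z) →
      (∀ f, deg f = 1 → (x * z * x⁻¹) * ψ f = ψ f * (x * z * x⁻¹)) := by
    intro z hz f hf
    have h1 : deg (T⁻¹ * f * T) = 1 := by simp [hf]
    have h2 := hz _ h1
    simp only [map_mul, map_inv, ← hx] at h2
    calc x * z * x⁻¹ * ψ f = x * (z * (x⁻¹ * ψ f * x)) * x⁻¹ := by group
      _ = x * ((x⁻¹ * ψ f * x) * z) * x⁻¹ := by rw [h2]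
      _ = ψ f * (x * z * x⁻¹) := by group
  have hmul : ∀ z z' : Q, (∀ f, deg f = 1 → z * ψ f = ψ f * z) →
      (∀ f, deg f = 1 → z' * ψ f = ψ f * z') →
      (∀ f, deg f = 1 → (z * z') * ψ f = ψ f * (z * z')) := by
    intro z z' hz hz' f hf
    rw [mul_assoc, hz' f hf, ← mul_assoc, hz f hf, mul_assoc]
  have hinv : ∀ z : Q, (∀ f, deg f = 1 → z * ψ f = ψ f * z) →
      (∀ f, deg f = 1 → z⁻¹ * ψ f = ψ f * z⁻¹) := by
    intro z hz f hf
    have := hz f hf
    calc z⁻¹ * ψ f = z⁻¹ * (ψ f * z) * z⁻¹ := by group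
      _ = z⁻¹ * (z * ψ f) * z⁻¹ := by rw [this]
      _ = ψ f * z⁻¹ := by group
  have hu : ∀ n : ℤ, ∀ f, deg f = 1 →
      (x ^ (-n) * (c * x) ^ n) * ψ f = ψ f * (x ^ (-n) * (c * x) ^ n) := by
    intro n
    induction n using Int.induction_on with
    | zero => intro f _; simp
    | succ n ih =>
      have e : x ^ (-((n : ℤ) + 1)) * (c * x) ^ ((n : ℤ) + 1) =
          x⁻¹ * ((x ^ (-(n : ℤ)) * (c * x) ^ (n : ℤ)) * c) * x := by
        rw [neg_add, add_comm (-(n : ℤ)) (-1), zpow_add, zpow_neg_one, zpow_add_one]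
        simp only [mul_assoc]
      rw [e]
      exact hconj _ (hmul _ _ ih hc)
    | pred n ih =>
      have e : x ^ (-(-(n : ℤ) - 1)) * (c * x) ^ (-(n : ℤ) - 1) =
          (x * (x ^ (-(-(n : ℤ))) * (c * x) ^ (-(n : ℤ))) * x⁻¹) * c⁻¹ := by
        have h1 : -(-(n : ℤ) - 1) = 1 + -(-(n : ℤ)) := by ring
        rw [h1, zpow_add, zpow_one, zpow_sub_one, mul_inv_rev]
        simp only [mul_assoc]
      rw [e]
      exact hmul _ _ (hconj' _ ih) (hinv _ hc)
  let d : F → ℤ := fun f => (deg f).toAdd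
  have hd_mul : ∀ f g, d (f * g) = d f + d g := by
    intro f g; simp [d]
  have hd_one : d 1 = 0 := by simp [d]
  have hdT : d T = 1 := by simp [d, hT]
  have hd0 : ∀ f, deg f = 1 → d f = 0 := by
    intro f hf; simp [d, hf]
  let Θ : F → Q := fun f => ψ f * (x ^ (-(d f)) * (c * x) ^ (d f))
  have hΘ : ∀ f g, Θ (f * g) = Θ f * Θ g := by
    intro f g
    have hg : deg (g * T ^ (-(d g))) = 1 := by
      rw [map_mul, map_zpow, hT]
      apply Multiplicative.toAdd.injective
      simp [d]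
    have h1 := hu (d f) _ hg
    simp only [map_mul, map_zpow, ← hx] at h1
    simp only [Θ, hd_mul, map_mul]
    calc ψ f * ψ g * (x ^ (-(d f + d g)) * (c * x) ^ (d f + d g))
        = ψ f * ((ψ g * x ^ (-(d g))) * (x ^ (-(d f)) * (c * x) ^ (d f))) * (c * x) ^ (d g) := by
          rw [neg_add, add_comm (-(d f)) (-(d g)), zpow_add x, zpow_add (c * x)]
          simp only [mul_assoc]
      _ = ψ f * ((x ^ (-(d f)) * (c * x) ^ (d f)) * (ψ g * x ^ (-(d g)))) * (c * x) ^ (d g) := by
          rw [h1]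
      _ = ψ f * (x ^ (-(d f)) * (c * x) ^ (d f)) * (ψ g * (x ^ (-(d g)) * (c * x) ^ (d g))) := by
          simp only [mul_assoc]
  refine ⟨MonoidHom.mk' Θ hΘ, ?_, ?_⟩
  · intro f hf
    simp [Θ, hd0 f hf]
  · simp [Θ, hdT, ← hx]

/-- For a word in at least two letters there is a degree map killing it which is onto. -/
lemma exists_deg {r : ℕ} (hr : 2 ≤ r) (w : FreeGroup (Fin r)) :
    ∃ (deg : FreeGroup (Fin r) →* Multiplicative ℤ) (T : FreeGroup (Fin r)),
      deg w = 1 ∧ deg T = Multiplicative.ofAdd 1 := by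
  have key : ∀ a b : ℤ, ∃ a' b' : ℤ, IsCoprime a' b' ∧ b' * a = a' * b := by
    intro a b
    by_cases h : a = 0 ∧ b = 0
    · exact ⟨1, 0, isCoprime_one_left, by simp [h.1, h.2]⟩
    · have hg : Int.gcd a b ≠ 0 := by
        intro h0
        exact h (Int.gcd_eq_zero_iff.mp h0)
      refine ⟨a / (Int.gcd a b : ℤ), b / (Int.gcd a b : ℤ), ?_, ?_⟩
      · have := Int.gcd_div_gcd_div_gcd (i := a) (j := b) (Nat.pos_of_ne_zero hg)
        exact Int.isCoprime_iff_gcd_eq_one.mpr this
      · obtain ⟨u, hu⟩ := Int.gcd_dvd_left a b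
        obtain ⟨v, hv⟩ := Int.gcd_dvd_right a b
        have hg' : (Int.gcd a b : ℤ) ≠ 0 := by exact_mod_cast hg
        have e1 : a / (Int.gcd a b : ℤ) = u := by
          conv_lhs => rw [hu]
          rw [← hu]
          exact Int.ediv_eq_of_eq_mul_right hg' hu
        have e2 : b / (Int.gcd a b : ℤ) = v := Int.ediv_eq_of_eq_mul_right hg' hv
        rw [e1, e2]
        calc v * a = v * ((Int.gcd a b : ℤ) * u) := by rw [← hu]
          _ = u * ((Int.gcd a b : ℤ) * v) := by ring
          _ = u * b := by rw [← hv]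
  let i0 : Fin r := ⟨0, by omega⟩
  let i1 : Fin r := ⟨1, by omega⟩
  have hne : i0 ≠ i1 := by
    intro h
    have := congrArg Fin.val h
    simp [i0, i1] at this
  let ex : Fin r → FreeGroup (Fin r) →* Multiplicative ℤ := fun i =>
    FreeGroup.lift (fun j => if j = i then Multiplicative.ofAdd (1 : ℤ) else 1)
  obtain ⟨a', b', hcop, hab⟩ := key (ex i0 w).toAdd (ex i1 w).toAdd
  obtain ⟨u, v, huv⟩ := hcop
  refine ⟨(ex i0) ^ b' * ((ex i1) ^ a')⁻¹,
    (FreeGroup.of i0) ^ v * (FreeGroup.of i1) ^ (-u), ?_, ?_⟩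
  · apply Multiplicative.toAdd.injective
    simp only [MonoidHom.mul_apply, MonoidHom.inv_apply, toAdd_mul, toAdd_inv, toAdd_one]
    have e1 : (((ex i0) ^ b') w).toAdd = b' * (ex i0 w).toAdd := by
      rw [MonoidHom.zpow_apply]; simp
    have e2 : (((ex i1) ^ a') w).toAdd = a' * (ex i1 w).toAdd := by
      rw [MonoidHom.zpow_apply]; simp
    rw [e1, e2, hab]; ring
  · apply Multiplicative.toAdd.injective
    have h00 : (ex i0 (FreeGroup.of i0)).toAdd = 1 := by simp [ex]
    have h01 : (ex i0 (FreeGroup.of i1)).toAdd = 0 := by simp [ex, hne.symm]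
    have h10 : (ex i1 (FreeGroup.of i0)).toAdd = 0 := by simp [ex, hne]
    have h11 : (ex i1 (FreeGroup.of i1)).toAdd = 1 := by simp [ex]
    simp only [MonoidHom.mul_apply, MonoidHom.inv_apply, MonoidHom.zpow_apply, map_mul, map_zpow,
      toAdd_mul, toAdd_inv, toAdd_zpow, h00, h01, h10, h11, toAdd_ofAdd, smul_eq_mul]
    linarith

end Pool.Agent.Helper20.SemiRat
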