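import Pool.Agent.Helper20.Div

set_option autoImplicit false

namespace Pool.Agent.Helper20.SemiRat

open MulAction

/-- Functions with values in a group, on which the group acts by conjugating the values. -/
def CF (A Q : Type*) := A → Q

instance {A Q : Type*} [Group Q] : MulAction Q (CF A Q) where
  smul h f := fun a => h * f a * h⁻¹
  one_smul f := by
    funext a
    change 1 * f a * 1⁻¹ = f a
    simp
  mul_smul h k f := by
    funext a
    change (h * k) * f a * (h * k)⁻¹ = h * (k * f a * k⁻¹) * h⁻¹
    group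

lemma CF.smul_apply {A Q : Type*} [Group Q] (h : Q) (f : CF A Q) (a : A) :
    (h • f) a = h * f a * h⁻¹ := rfl

/-- Solutions of `w = g`. -/
def Sol {r : ℕ} (w : FreeGroup (Fin r)) {Q : Type*} [Group Q] (g : Q) :=
  {t : Fin r → Q // FreeGroup.lift t w = g}

instance {r : ℕ} (w : FreeGroup (Fin r)) {Q : Type*} [Group Q] [Finite Q] (g : Q) :
    Finite (Sol w g) := by unfold Sol; infer_instance

lemma lift_conj {r : ℕ} {Q : Type*} [Group Q] (t : Fin r → Q) (h : Q) (f : FreeGroup (Fin r)) :
    FreeGroup.lift (fun i => h * t i * h⁻¹) f = h * FreeGroup.lift t f * h⁻¹ := by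
  have : FreeGroup.lift (fun i => h * t i * h⁻¹) =
      (MulAut.conj h).toMonoidHom.comp (FreeGroup.lift t) := by
    ext i
    simp
  rw [this]
  simp

instance {r : ℕ} (w : FreeGroup (Fin r)) {Q : Type*} [Group Q] (g : Q) :
    MulAction (Subgroup.centralizer ({g} : Set Q)) (Sol w g) where
  smul h t := ⟨fun i => (h : Q) * t.1 i * (h : Q)⁻¹, by
    rw [lift_conj, t.2]
    have := Subgroup.mem_centralizer_singleton_iff.mp h.2
    rw [this]
    group⟩
  one_smul t := by
    apply Subtype.ext
    funext i
    change 1 * t.1 i * 1⁻¹ = t.1 i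
    simp
  mul_smul h k t := by
    apply Subtype.ext
    funext i
    change ((h : Q) * (k : Q)) * t.1 i * ((h : Q) * (k : Q))⁻¹ =
      (h : Q) * ((k : Q) * t.1 i * (k : Q)⁻¹) * (h : Q)⁻¹
    group

/-- The divisibility theorem: the order of the centralizer of `g` divides the number of
solutions of `w = g`, when `w` is a word in at least two letters. -/
theorem card_centralizer_dvd {r : ℕ} (hr : 2 ≤ r) (w : FreeGroup (Fin r)) {Q : Type*} [Group Q]
    [Finite Q] (g : Q) :
    Nat.card (Subgroup.centralizer ({g} : Set Q)) ∣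
      Nat.card {t : Fin r → Q // FreeGroup.lift t w = g} := by
  obtain ⟨deg, T, hw, hT⟩ := exists_deg hr w
  let π : Sol w g → CF deg.ker Q := fun t f => FreeGroup.lift t.1 f.1
  change Nat.card (Subgroup.centralizer ({g} : Set Q)) ∣ Nat.card (Sol w g)
  refine card_dvd_of_fibers (H := Subgroup.centralizer ({g} : Set Q)) π ?_ ?_
  · intro h t
    funext f
    exact lift_conj t.1 (h : Q) f.1
  · intro t
    -- the set of possible values at `T`
    let S := {x : Q // ∃ t' : Sol w g, π t' = π t ∧ FreeGroup.lift t'.1 T = x}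
    have huniq : ∀ ψ ψ' : FreeGroup (Fin r) →* Q, (∀ f, deg f = 1 → ψ f = ψ' f) →
        ψ T = ψ' T → ψ = ψ' := by
      intro ψ ψ' h1 h2
      ext1 f
      have hf : deg (FreeGroup.of f * T ^ (-(deg (FreeGroup.of f)).toAdd)) = 1 := by
        rw [map_mul, map_zpow, hT]
        apply Multiplicative.toAdd.injective
        simp
      have h3 := h1 _ hf
      simp only [map_mul, map_zpow, h2] at h3
      exact mul_right_cancel h3
    have hbij : Nat.card {t' : Sol w g // π t' = π t} = Nat.card S := by
      refine Nat.card_congr (Equiv.ofBijective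
        (fun t' => ⟨FreeGroup.lift t'.1.1 T, t'.1, t'.2, rfl⟩) ⟨?_, ?_⟩)
      · rintro ⟨t1, h1⟩ ⟨t2, h2⟩ h
        have h := congrArg Subtype.val h
        have h12 : FreeGroup.lift t1.1 = FreeGroup.lift t2.1 := by
          refine huniq _ _ ?_ h
          intro f hf
          have := congrFun (h1.trans h2.symm) ⟨f, hf⟩
          exact this
        apply Subtype.ext
        apply Subtype.ext
        exact FreeGroup.lift.injective h12
      · rintro ⟨x, t', h1, h2⟩
        exact ⟨⟨t', h1⟩, Subtype.ext h2⟩
    rw [hbij]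
    let C := stabilizer (Subgroup.centralizer ({g} : Set Q)) (π t)
    have hC : ∀ c : C, ∀ t' : Sol w g, π t' = π t → ∀ f, deg f = 1 →
        (c.1.1 : Q) * FreeGroup.lift t'.1 f = FreeGroup.lift t'.1 f * (c.1.1 : Q) := by
      intro c t' ht' f hf
      have h1 : c.1 • π t = π t := c.2
      have h2 := congrFun h1 ⟨f, hf⟩
      have h3 : (c.1.1 : Q) * π t ⟨f, hf⟩ * (c.1.1 : Q)⁻¹ = π t ⟨f, hf⟩ := h2
      rw [← ht'] at h3
      have h4 : (c.1.1 : Q) * FreeGroup.lift t'.1 f * (c.1.1 : Q)⁻¹ = FreeGroup.lift t'.1 f := h3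
      calc (c.1.1 : Q) * FreeGroup.lift t'.1 f
          = ((c.1.1 : Q) * FreeGroup.lift t'.1 f * (c.1.1 : Q)⁻¹) * (c.1.1 : Q) := by group
        _ = _ := by rw [h4]
    let act : MulAction C S :=
      { smul := fun c x => ⟨(c.1.1 : Q) * x.1, by
          obtain ⟨t', ht', hx⟩ := x.2
          obtain ⟨ψ', hψ', hψT⟩ := exists_twist deg T hT (FreeGroup.lift t'.1) (c.1.1 : Q)
            (hC c t' ht')
          have hl : FreeGroup.lift (fun i => ψ' (FreeGroup.of i)) = ψ' := by
            ext i; simp
          refine ⟨⟨fun i => ψ' (FreeGroup.of i), ?_⟩, ?_, ?_⟩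
          · rw [hl, hψ' w hw, t'.2]
          · rw [← ht']
            funext f
            change FreeGroup.lift (fun i => ψ' (FreeGroup.of i)) f.1 = FreeGroup.lift t'.1 f.1
            rw [hl, hψ' f.1 f.2]
          · change FreeGroup.lift (fun i => ψ' (FreeGroup.of i)) T = _
            rw [hl, hψT, hx]⟩
        one_smul := by
          intro x
          apply Subtype.ext
          change (1 : Q) * x.1 = x.1
          simp
        mul_smul := by
          intro c d x
          apply Subtype.ext
          change ((c.1.1 : Q) * (d.1.1 : Q)) * x.1 = (c.1.1 : Q) * ((d.1.1 : Q) * x.1)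
          group }
    refine @card_dvd_of_free C S _ _ _ act ?_
    intro x
    rw [eq_bot_iff]
    intro c hc
    have h1 : (c.1.1 : Q) * x.1 = x.1 := congrArg Subtype.val hc
    have h2 : (c.1.1 : Q) = 1 := by simpa using h1
    rw [Subgroup.mem_bot]
    apply Subtype.ext
    apply Subtype.ext
    exact h2

end Pool.Agent.Helper20.SemiRat
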